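import Pool.Agent.helper5.BEY.SpecA

/-!
# Project BEY (MP_4467b5_nt), row PNM: the mean square of the periodization
-/

set_option autoImplicit false

open Complex MeasureTheory

namespace Pool.Agent.BEY

/-- a sum of reciprocals of `G`-separated distances -/
theorem PNM_sep (P : Finset ℝ) (d : ℝ → ℝ) (G L : ℝ) (hG : 1 ≤ G) (hL : 1 ≤ L) (h1 : ∀ s ∈ P, G ≤ d s ∧ d s ≤ L)
    (h2 : ∀ s ∈ P, ∀ s' ∈ P, s ≠ s' → G ≤ |d s - d s'|) :
    ∑ s ∈ P, 1 / d s ≤ 1 / G * (1 + Real.log L) := by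
  classical
  have hG0 : 0 < G := by linarith
  obtain ⟨k, hk⟩ : ∃ k : ℝ → ℕ, k = fun s => ⌊d s / G⌋₊ - 1 := ⟨_, rfl⟩
  have hfl : ∀ s ∈ P, 1 ≤ ⌊d s / G⌋₊ := by
    intro s hs
    rw [Nat.one_le_floor_iff, le_div_iff₀ hG0, one_mul]
    exact (h1 s hs).1
  have hinj : Set.InjOn k P := by
    intro s hs s' hs' he
    by_contra hne
    have e1 := hfl s hs
    have e2 := hfl s' hs'
    have e3 : ⌊d s / G⌋₊ = ⌊d s' / G⌋₊ := by
      rw [hk] at he
      change ⌊d s / G⌋₊ - 1 = ⌊d s' / G⌋₊ - 1 at he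
      omega
    have e4 := h2 s hs s' hs' hne
    have b1 := Nat.floor_le (show 0 ≤ d s / G from div_nonneg (by have := (h1 s hs).1; linarith) hG0.le)
    have b2 := Nat.lt_floor_add_one (d s / G)
    have b3 := Nat.floor_le (show 0 ≤ d s' / G from div_nonneg (by have := (h1 s' hs').1; linarith) hG0.le)
    have b4 := Nat.lt_floor_add_one (d s' / G)
    rw [e3] at b1 b2
    have b5 : |d s / G - d s' / G| < 1 := by
      rw [abs_lt]
      constructor <;> linarith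
    have b6 : |d s - d s'| < G := by
      have e5 : d s - d s' = (d s / G - d s' / G) * G := by
        field_simp
      rw [e5, abs_mul, abs_of_pos hG0]
      nlinarith
    linarith
  have hle : ∀ s ∈ P, 1 / d s ≤ 1 / G * (((k s : ℕ) : ℝ) + 1)⁻¹ := by
    intro s hs
    have e1 := hfl s hs
    have e2 : ((k s : ℕ) : ℝ) + 1 = (⌊d s / G⌋₊ : ℝ) := by
      rw [hk]
      change ((⌊d s / G⌋₊ - 1 : ℕ) : ℝ) + 1 = _
      rw [Nat.cast_sub e1]
      push_cast
      ring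
    have e3 : (0 : ℝ) < ⌊d s / G⌋₊ := by exact_mod_cast e1
    have e4 : 0 < d s := by have := (h1 s hs).1; linarith
    have e5 := Nat.floor_le (show 0 ≤ d s / G from (div_pos e4 hG0).le)
    rw [le_div_iff₀ hG0] at e5
    rw [e2, ← one_div, one_div_mul_one_div]
    apply one_div_le_one_div_of_le (mul_pos hG0 e3)
    linarith
  have hrange : P.image k ⊆ Finset.range ⌊L⌋₊ := by
    intro i hi
    rw [Finset.mem_image] at hi
    obtain ⟨s, hs, rfl⟩ := hi
    rw [Finset.mem_range, hk]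
    change ⌊d s / G⌋₊ - 1 < ⌊L⌋₊
    have e1 := hfl s hs
    have e2 : ⌊d s / G⌋₊ ≤ ⌊L⌋₊ := by
      apply Nat.floor_le_floor
      rw [div_le_iff₀ hG0]
      have := (h1 s hs).2
      nlinarith
    omega
  have hharm : ∑ i ∈ Finset.range ⌊L⌋₊, ((i : ℝ) + 1)⁻¹ ≤ 1 + Real.log L := by
    have e1 := harmonic_le_one_add_log ⌊L⌋₊
    have e2 : ((harmonic ⌊L⌋₊ : ℚ) : ℝ) = ∑ i ∈ Finset.range ⌊L⌋₊, ((i : ℝ) + 1)⁻¹ := by
      rw [harmonic]
      push_cast
      rfl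
    rw [e2] at e1
    have e3 : (1 : ℝ) ≤ ⌊L⌋₊ := by
      have : 1 ≤ ⌊L⌋₊ := by
        rw [Nat.one_le_floor_iff]
        exact hL
      exact_mod_cast this
    have e4 : Real.log (⌊L⌋₊ : ℝ) ≤ Real.log L :=
      Real.log_le_log (by linarith) (Nat.floor_le (by linarith))
    linarith
  calc ∑ s ∈ P, 1 / d s ≤ ∑ s ∈ P, 1 / G * (((k s : ℕ) : ℝ) + 1)⁻¹ := Finset.sum_le_sum hle
    _ = 1 / G * ∑ i ∈ P.image k, ((i : ℝ) + 1)⁻¹ := by
      rw [← Finset.mul_sum, Finset.sum_image hinj]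
    _ ≤ 1 / G * ∑ i ∈ Finset.range ⌊L⌋₊, ((i : ℝ) + 1)⁻¹ := by
      apply mul_le_mul_of_nonneg_left _ (by positivity)
      apply Finset.sum_le_sum_of_subset_of_nonneg hrange
      intro i _ _
      positivity
    _ ≤ 1 / G * (1 + Real.log L) := by
      apply mul_le_mul_of_nonneg_left hharm (by positivity)

/-- the sum over all `t' ≠ t` -/
theorem PNM_row (W : Finset ℝ) (G T : ℝ) (hG : 1 ≤ G) (hT : 1 ≤ T) (hW : ∀ t ∈ W, T / 2 ≤ t ∧ t ≤ 3 * T)
    (hsep : ∀ t ∈ W, ∀ s ∈ W, t ≠ s → G ≤ |t - s|) (t : ℝ) (ht : t ∈ W) :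
    ∑ s ∈ W.erase t, 1 / |t - s| ≤ 4 / G * (1 + Real.log T) := by
  classical
  have hG0 : 0 < G := by linarith
  have hlog : 0 ≤ Real.log T := Real.log_nonneg hT
  have hL : 1 ≤ 5 * T / 2 := by linarith
  have hlogL : Real.log (5 * T / 2) ≤ 1 + Real.log T := by
    have e1 : 5 * T / 2 = (5 / 2) * T := by ring
    rw [e1, Real.log_mul (by norm_num) (by linarith)]
    have e2 : Real.log (5 / 2) ≤ 1 := by
      rw [Real.log_le_iff_le_exp (by norm_num)]
      have := Real.exp_one_gt_d9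
      linarith
    linarith
  have hsplit : ∑ s ∈ W.erase t, 1 / |t - s| =
      ∑ s ∈ W.filter (fun s => t < s), 1 / (s - t) + ∑ s ∈ W.filter (fun s => s < t), 1 / (t - s) := by
    have e1 : W.erase t = W.filter (fun s => t < s) ∪ W.filter (fun s => s < t) := by
      ext s
      simp only [Finset.mem_erase, Finset.mem_union, Finset.mem_filter]
      constructor
      · rintro ⟨h1, h2⟩
        rcases lt_or_gt_of_ne h1 with h3 | h3
        · exact Or.inr ⟨h2, h3⟩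
        · exact Or.inl ⟨h2, h3⟩
      · rintro (⟨h1, h2⟩ | ⟨h1, h2⟩)
        · exact ⟨h2.ne', h1⟩
        · exact ⟨h2.ne, h1⟩
    have e2 : Disjoint (W.filter (fun s => t < s)) (W.filter (fun s => s < t)) := by
      rw [Finset.disjoint_left]
      intro s hs hs'
      rw [Finset.mem_filter] at hs hs'
      linarith [hs.2, hs'.2]
    rw [e1, Finset.sum_union e2]
    congr 1
    · refine Finset.sum_congr rfl fun s hs => ?_
      rw [Finset.mem_filter] at hs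
      rw [abs_sub_comm, abs_of_pos (by linarith [hs.2])]
    · refine Finset.sum_congr rfl fun s hs => ?_
      rw [Finset.mem_filter] at hs
      rw [abs_of_pos (by linarith [hs.2])]
  have h1 : ∑ s ∈ W.filter (fun s => t < s), 1 / (s - t) ≤ 1 / G * (1 + Real.log (5 * T / 2)) := by
    refine PNM_sep _ (fun s => s - t) G (5 * T / 2) hG hL ?_ ?_
    · intro s hs
      rw [Finset.mem_filter] at hs
      have e1 := hsep t ht s hs.1 hs.2.ne
      rw [abs_sub_comm, abs_of_pos (by linarith [hs.2])] at e1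
      have e2 := hW t ht
      have e3 := hW s hs.1
      exact ⟨e1, by linarith⟩
    · intro s hs s' hs' hne
      rw [Finset.mem_filter] at hs hs'
      have e1 := hsep s hs.1 s' hs'.1 hne
      have e2 : s - t - (s' - t) = s - s' := by ring
      rw [e2]
      exact e1
  have h2 : ∑ s ∈ W.filter (fun s => s < t), 1 / (t - s) ≤ 1 / G * (1 + Real.log (5 * T / 2)) := by
    refine PNM_sep _ (fun s => t - s) G (5 * T / 2) hG hL ?_ ?_
    · intro s hs
      rw [Finset.mem_filter] at hs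
      have e1 := hsep t ht s hs.1 hs.2.ne'
      rw [abs_of_pos (by linarith [hs.2])] at e1
      have e2 := hW t ht
      have e3 := hW s hs.1
      exact ⟨e1, by linarith⟩
    · intro s hs s' hs' hne
      rw [Finset.mem_filter] at hs hs'
      have e1 := hsep s hs.1 s' hs'.1 hne
      have e2 : t - s - (t - s') = -(s - s') := by ring
      rw [e2, abs_neg]
      exact e1
  rw [hsplit]
  have h3 : 1 / G * (1 + Real.log (5 * T / 2)) ≤ 1 / G * (2 * (1 + Real.log T)) := by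
    apply mul_le_mul_of_nonneg_left _ (by positivity)
    linarith
  have h4 : 4 / G * (1 + Real.log T) = 1 / G * (2 * (1 + Real.log T)) + 1 / G * (2 * (1 + Real.log T)) := by
    ring
  rw [h4]
  linarith

theorem PNM (hPE1 : PE1_stmt) (hOS0 : OS0_stmt) (hOSS : OSS_stmt) : PNM_stmt := by
  classical
  obtain ⟨C0, hC0, h0⟩ := hOS0
  obtain ⟨C1, hC1, h1⟩ := hOSS
  refine ⟨4 * C0 + C1, by positivity, ?_⟩
  intro Q T G T₀ A W c hQ hQT hG hA hW hc hsep hT0
  have hT : 1 ≤ T := hQ.trans hQT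
  have hTp : 0 < T := by linarith
  have hQp : 0 < Q := by linarith
  have hGp : 0 < G := by linarith
  have hlog : 0 ≤ Real.log T := Real.log_nonneg hT
  have hlogQ : Real.log Q ≤ Real.log T := Real.log_le_log hQp hQT
  have hlogQ0 : 0 ≤ Real.log Q := Real.log_nonneg hQ
  obtain ⟨J, hJ⟩ : ∃ J : Finset ℤ, J = Finset.Icc (-(⌈4 * Q⌉₊ : ℤ)) (⌈4 * Q⌉₊ : ℤ) := ⟨_, rfl⟩
  have h0J : (0 : ℤ) ∈ J := by
    rw [hJ, Finset.mem_Icc]
    constructor <;> omega
  refine (hPE1 Q A W c hQ hA).trans ?_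
  rw [← hJ]
  obtain ⟨X, hX⟩ : ∃ X : ℝ, X = T₀ ^ (1 / 2 : ℝ) * Q ^ (5 / 2 : ℝ) / T + Q ^ 3 / T := ⟨_, rfl⟩
  -- one pair
  have hpair : ∀ t ∈ W, ∀ t' ∈ W, ‖c t‖ * ‖c t'‖ * ∑ j ∈ J, ‖OI A A t t' j‖ ≤
      ‖OI A A t t' 0‖ + C1 * (1 + Real.log T) * X := by
    intro t ht t' ht'
    have e1 : ∑ j ∈ J, ‖OI A A t t' j‖ = ‖OI A A t t' 0‖ + ∑ j ∈ J.erase 0, ‖OI A A t t' j‖ :=
      (Finset.add_sum_erase J _ h0J).symm
    have e2 := h1 Q T t t' A A hQ hA hA hTp (hW t ht).1 (hW t ht).2 (hW t' ht').1 (hW t' ht').2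
    rw [← hJ] at e2
    have e3 : |t - t'| ^ (1 / 2 : ℝ) ≤ T₀ ^ (1 / 2 : ℝ) :=
      Real.rpow_le_rpow (abs_nonneg _) (hT0 t ht t' ht') (by norm_num)
    have hT00 : 0 ≤ T₀ := (abs_nonneg _).trans (hT0 t ht t' ht')
    have e4 : |t - t'| ^ (1 / 2 : ℝ) * Q ^ (5 / 2 : ℝ) / T + Q ^ 3 * (1 + Real.log Q) / T ≤ (1 + Real.log T) * X := by
      rw [hX]
      have a1 : |t - t'| ^ (1 / 2 : ℝ) * Q ^ (5 / 2 : ℝ) / T ≤ T₀ ^ (1 / 2 : ℝ) * Q ^ (5 / 2 : ℝ) / T := by
        apply div_le_div_of_nonneg_right _ hTp.le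
        exact mul_le_mul_of_nonneg_right e3 (Real.rpow_nonneg hQp.le _)
      have a2 : 0 ≤ T₀ ^ (1 / 2 : ℝ) * Q ^ (5 / 2 : ℝ) / T :=
        div_nonneg (mul_nonneg (Real.rpow_nonneg hT00 _) (Real.rpow_nonneg hQp.le _)) hTp.le
      have a3 : Q ^ 3 * (1 + Real.log Q) / T = (1 + Real.log Q) * (Q ^ 3 / T) := by ring
      have a4 : 0 ≤ Q ^ 3 / T := by positivity
      rw [a3]
      nlinarith [mul_nonneg hlog a2, mul_le_mul_of_nonneg_right (add_le_add_right hlogQ 1) a4]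
    have e5 : ‖c t‖ * ‖c t'‖ ≤ 1 :=
      mul_le_one₀ (hc t ht) (norm_nonneg _) (hc t' ht')
    have e6 : 0 ≤ ∑ j ∈ J, ‖OI A A t t' j‖ := Finset.sum_nonneg fun j _ => norm_nonneg _
    calc ‖c t‖ * ‖c t'‖ * ∑ j ∈ J, ‖OI A A t t' j‖ ≤ 1 * ∑ j ∈ J, ‖OI A A t t' j‖ :=
          mul_le_mul_of_nonneg_right e5 e6
      _ = ‖OI A A t t' 0‖ + ∑ j ∈ J.erase 0, ‖OI A A t t' j‖ := by rw [one_mul, e1]
      _ ≤ ‖OI A A t t' 0‖ + C1 * ((1 + Real.log T) * X) := by
          have := mul_le_mul_of_nonneg_left e4 hC1.le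
          linarith
      _ = ‖OI A A t t' 0‖ + C1 * (1 + Real.log T) * X := by ring
  -- the terms with `j = 0`
  have hdiag : ∀ t ∈ W, ∑ t' ∈ W, ‖OI A A t t' 0‖ ≤ 4 * C0 * (1 + Real.log T) * (Q + Q ^ 2 / G) := by
    intro t ht
    rw [← Finset.add_sum_erase W _ ht]
    have e1 := (h0 Q t t A A hQ hA hA).1 0
    have e2 : ∑ t' ∈ W.erase t, ‖OI A A t t' 0‖ ≤ ∑ t' ∈ W.erase t, C0 * Q ^ 2 * (1 / |t - t'|) := by
      refine Finset.sum_le_sum fun t' ht' => ?_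
      have a1 := (h0 Q t t' A A hQ hA hA).2.1
      have a2 : 0 < |t - t'| := abs_pos.2 (sub_ne_zero.2 (Finset.ne_of_mem_erase ht').symm)
      rw [mul_one_div, le_div_iff₀ a2, mul_comm]
      exact a1
    rw [← Finset.mul_sum] at e2
    have e3 := PNM_row W G T hG hT hW hsep t ht
    have e4 := mul_le_mul_of_nonneg_left e3 (show 0 ≤ C0 * Q ^ 2 by positivity)
    have e5 : C0 * Q ^ 2 * (4 / G * (1 + Real.log T)) = 4 * C0 * (1 + Real.log T) * (Q ^ 2 / G) := by ring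
    have e6 : C0 * Q ≤ 4 * C0 * (1 + Real.log T) * Q := by
      have : 0 ≤ C0 * Q := by positivity
      nlinarith [mul_nonneg this hlog]
    rw [e5] at e4
    linarith
  calc ∑ t ∈ W, ∑ t' ∈ W, ‖c t‖ * ‖c t'‖ * ∑ j ∈ J, ‖OI A A t t' j‖
      ≤ ∑ t ∈ W, ∑ t' ∈ W, (‖OI A A t t' 0‖ + C1 * (1 + Real.log T) * X) :=
        Finset.sum_le_sum fun t ht => Finset.sum_le_sum fun t' ht' => hpair t ht t' ht'
    _ = ∑ t ∈ W, (∑ t' ∈ W, ‖OI A A t t' 0‖ + (W.card : ℝ) * (C1 * (1 + Real.log T) * X)) := by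
        refine Finset.sum_congr rfl fun t _ => ?_
        rw [Finset.sum_add_distrib, Finset.sum_const, nsmul_eq_mul]
    _ ≤ ∑ t ∈ W, (4 * C0 * (1 + Real.log T) * (Q + Q ^ 2 / G) + (W.card : ℝ) * (C1 * (1 + Real.log T) * X)) := by
        refine Finset.sum_le_sum fun t ht => ?_
        have := hdiag t ht
        linarith
    _ = (W.card : ℝ) * (4 * C0 * (1 + Real.log T) * (Q + Q ^ 2 / G) + (W.card : ℝ) * (C1 * (1 + Real.log T) * X)) := by
        rw [Finset.sum_const, nsmul_eq_mul]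
    _ = 4 * C0 * (1 + Real.log T) * ((W.card : ℝ) * (Q + Q ^ 2 / G)) +
          C1 * (1 + Real.log T) * ((W.card : ℝ) ^ 2 * X) := by ring
    _ ≤ (4 * C0 + C1) * (1 + Real.log T) * ((W.card : ℝ) * (Q + Q ^ 2 / G) + (W.card : ℝ) ^ 2 * X) := by
        have b1 : 0 ≤ (W.card : ℝ) * (Q + Q ^ 2 / G) := by positivity
        have b2 : 0 ≤ (W.card : ℝ) ^ 2 * X := by
          rcases W.eq_empty_or_nonempty with h | ⟨t, ht⟩
          · rw [h]
            simp
          · have hT00 : 0 ≤ T₀ := (abs_nonneg _).trans (hT0 t ht t ht)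
            rw [hX]
            have a2 : 0 ≤ T₀ ^ (1 / 2 : ℝ) * Q ^ (5 / 2 : ℝ) / T :=
              div_nonneg (mul_nonneg (Real.rpow_nonneg hT00 _) (Real.rpow_nonneg hQp.le _)) hTp.le
            positivity
        have b3 : 0 ≤ C0 * (1 + Real.log T) := by positivity
        have b4 : 0 ≤ C1 * (1 + Real.log T) := by positivity
        nlinarith [mul_nonneg b3 b2, mul_nonneg b4 b1]
    _ = _ := by rw [hX]

end Pool.Agent.BEY
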